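import Pool.Agent.TH116.BS.Main

/-!
# The Beilinson-Soulé vanishing conjecture is a statement on cohomological degree -1

The theorem is about a family of groups `H i n F`, for the extension fields `F` of a field `k`,
with embedding maps, products with symbols of units and residue maps (`FieldTheory`), such that

* the residue at `t = 0` of `{t} · x` is `x` for all `x` which come from `F`;
* the maps `H i n F → H i n E` are functorial, compatible with the products with symbols, and
  injective for all embeddings `F → E` (`IsRational`);
* every element of `H i n ℂ` comes from a countable subfield of `ℂ` which contains `k`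
  (`IsContinuousAt`).

It applies to every smooth projective variety `X` over `ℂ`. In fact, `X = Y ⊗ ℂ` for a variety `Y`
over a countable (even finitely generated) subfield `k ⊂ ℂ`, and the groups
`H i n F = H^i(Y_F, ℚ(n)) = CH^n(Y_F, 2n - i) ⊗ ℚ` have these properties; the residue maps come from
the localization sequence of higher Chow groups, and the injectivity holds because of the rational
coefficients.

Theorem. `H^i(X, ℚ(n)) = 0` for all `i < 0` and all `n` if and only if `H^{-1}(X, ℚ(n)) = 0`
for all `n`. More precisely, for all `i`, `n` and `m ≥ 0`, if `H^{i+m}(X, ℚ(n+m)) = 0`, then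
`H^i(X, ℚ(n)) = 0`.

Proof. Let `x ∈ H^i(X, ℚ(n))` be nonzero. It comes from a countable subfield `L` of `ℂ`, and there is
`w ∈ ℂ` which is transcendental over `L`. The product `{w} · x ∈ H^{i+1}(X, ℚ(n+1))` comes from
`L(w)`, where it does not vanish as its residue at `w = 0` is `x ≠ 0`. By injectivity, it does not
vanish over `ℂ`.
-/

set_option autoImplicit false

universe v

namespace Pool.Agent.Results.MP_d72c81_ag.DegreeMinusOne

open Pool.Agent.TH116.BS

/-- The field `ℂ` as an extension field of `k`. -/
noncomputable def complexExt (k : Type) [Field k] [Algebra k ℂ] : Ext k := ⟨ℂ⟩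

/-- For a family of groups `H i n F` with symbols, residue maps, injective embedding maps, and
which is continuous at `ℂ`, vanishing of `H i n ℂ` for all `i < 0` is equivalent to vanishing for
`i = -1`, and vanishing of `H (i + m) (n + m) ℂ` implies vanishing of `H i n ℂ`. -/
theorem result {k : Type} [Field k] [Algebra k ℂ] (T : FieldTheory.{0, v} k) (hT : T.IsRational)
    (hc : T.IsContinuousAt (complexExt k)) :
    ((∀ n : ℤ, Subsingleton (T.H (-1) n (complexExt k))) ↔
      ∀ i n : ℤ, i < 0 → Subsingleton (T.H i n (complexExt k))) ∧
    (∀ (m : ℕ) (i n : ℤ), Subsingleton (T.H (i + m) (n + m) (complexExt k)) →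
      Subsingleton (T.H i n (complexExt k))) := by
  have hunc : Uncountable (complexExt k).carrier := by
    change Uncountable ℂ
    rw [← Cardinal.aleph0_lt_mk_iff, Cardinal.mk_complex]
    exact Cardinal.aleph0_lt_continuum
  have key : ∀ (m : ℕ) (i n : ℤ), Subsingleton (T.H (i + m) (n + m) (complexExt k)) →
      Subsingleton (T.H i n (complexExt k)) := fun m i n h =>
    subsingleton_of_add_of_continuous hT hc m h
  refine ⟨⟨?_, ?_⟩, key⟩
  · intro h i n hi
    obtain ⟨m, hm⟩ := Int.eq_ofNat_of_zero_le (show 0 ≤ -1 - i by omega)
    apply key m
    have e : i + (m : ℤ) = -1 := by omega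
    rw [e]
    exact h _
  · intro h n
    exact h (-1) n (by norm_num)

end Pool.Agent.Results.MP_d72c81_ag.DegreeMinusOne
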